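import Mathlib

/-!
# Howitt-Warren flows: definitions
-/

set_option autoImplicit false

open MeasureTheory ProbabilityTheory Filter Topology
open scoped NNReal ENNReal

namespace Pool.Agent.H92HW

/-- `β₊(m) = β + 2 ∫ ν(dq) ∑_{k=0}^{m-2} (1-q)^k` (so `β₊(1) = β`). -/
noncomputable def betaPlus (β : ℝ) (ν : Measure unitInterval) (m : ℕ) : ℝ :=
  β + 2 * ∫ q : unitInterval, ∑ k ∈ Finset.range (m - 1), (1 - (q : ℝ)) ^ k ∂ν

/-- `f_Δ(x) = max_{i ∈ Δ} x_i`. -/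
noncomputable def fMax {n : ℕ} (Δ : Finset (Fin n)) (hΔ : Δ.Nonempty) (x : Fin n → ℝ) : ℝ :=
  Δ.sup' hΔ x

/-- `g_Δ(x)`, the number of `i ∈ Δ` with `x_i = f_Δ(x)`. -/
noncomputable def gMax {n : ℕ} (Δ : Finset (Fin n)) (hΔ : Δ.Nonempty) (x : Fin n → ℝ) : ℕ :=
  (Δ.filter fun i => x i = fMax Δ hΔ x).card

/-- The Howitt-Warren martingale problem with drift `β` and characteristic measure `ν`, for a
process `X` in `ℝ^n` started at `x`: the paths are continuous, `X` is square integrable,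
`f_Δ(X(t)) - ∫_0^t β₊(g_Δ(X(s))) ds` is a martingale for the natural filtration of `X` for
every nonempty `Δ` (so `X_i(t) - β t` is a martingale), and the covariation of `X_i` and `X_j` is
`∫_0^t 1{X_i(s) = X_j(s)} ds`, that is
`(X_i(t) - β t)(X_j(t) - β t) - ∫_0^t 1{X_i(s) = X_j(s)} ds` is a martingale. -/
structure SolvesHowittWarren (β : ℝ) (ν : Measure unitInterval) {Ω : Type}
    [MeasurableSpace Ω] (Q : Measure Ω) {n : ℕ} (x : Fin n → ℝ) (X : ℝ≥0 → Ω → Fin n → ℝ) :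
    Prop where
  continuous_paths : ∀ ω, Continuous fun t => X t ω
  start : ∀ᵐ ω ∂Q, X 0 ω = x
  measurable : ∀ t, StronglyMeasurable (X t)
  square_integrable : ∀ t i, MemLp (fun ω => X t ω i) 2 Q
  covariation : ∀ i j, Martingale (fun (t : ℝ≥0) ω =>
      (X t ω i - β * t) * (X t ω j - β * t) -
        ∫ s in (0 : ℝ)..t, Set.indicator {s : ℝ | X s.toNNReal ω i = X s.toNNReal ω j}
          (fun _ => (1 : ℝ)) s)
    (Filtration.natural X measurable) Q
  max_martingale : ∀ (Δ : Finset (Fin n)) (hΔ : Δ.Nonempty), Martingale (fun (t : ℝ≥0) ω =>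
      fMax Δ hΔ (X t ω) - ∫ s in (0 : ℝ)..t, betaPlus β ν (gMax Δ hΔ (X s.toNNReal ω)))
    (Filtration.natural X measurable) Q

/-- A stochastic flow of kernels on `ℝ`: random probability kernels `K_{s,t}`, `s ≤ t`, such that
(i) almost surely `K_{s,s}(x,·) = δ_x` and `∫ K_{s,t}(x,dy) K_{t,u}(y,A) = K_{s,u}(x,A)` for all
Borel `A`; (ii) the kernels of successive time intervals are independent; (iii) `K_{s,t}` and
`K_{s+u,t+u}` have the same finite-dimensional distributions. -/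
structure IsStochasticFlowOfKernels {Ω : Type} [MeasurableSpace Ω] (P : Measure Ω)
    (K : ℝ → ℝ → Kernel (Ω × ℝ) ℝ) : Prop where
  markov : ∀ s t, s ≤ t → IsMarkovKernel (K s t)
  start : ∀ s x, ∀ᵐ ω ∂P, K s s (ω, x) = Measure.dirac x
  composition : ∀ s t u, s ≤ t → t ≤ u → ∀ x, ∀ᵐ ω ∂P, ∀ A : Set ℝ, MeasurableSet A →
    ∫⁻ y, K t u (ω, y) A ∂(K s t (ω, x)) = K s u (ω, x) A
  independent : ∀ (m : ℕ) (τ : ℕ → ℝ), Monotone τ →
    iIndep (fun i : Fin m => ⨆ x : ℝ, MeasurableSpace.comap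
      (fun ω : Ω => (K (τ i) (τ (i + 1)) (ω, x) : Measure ℝ)) inferInstance) P
  stationary : ∀ s t u, s ≤ t → ∀ (n : ℕ) (x : Fin n → ℝ),
    IdentDistrib (fun (ω : Ω) (i : Fin n) => (K s t (ω, x i) : Measure ℝ))
      (fun (ω : Ω) (i : Fin n) => (K (s + u) (t + u) (ω, x i) : Measure ℝ)) P P

/-- A Howitt-Warren flow with drift `β` and characteristic measure `ν`: a stochastic flow of
kernels whose `n`-point motions, given by `P(X_i(t) ∈ A_i ∀ i) = E ∏_i K_{0,t}(x_i, A_i)`, solve the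
Howitt-Warren martingale problem. -/
structure IsHowittWarrenFlow (β : ℝ) (ν : Measure unitInterval) {Ω : Type} [MeasurableSpace Ω]
    (P : Measure Ω) (K : ℝ → ℝ → Kernel (Ω × ℝ) ℝ) : Prop where
  flow : IsStochasticFlowOfKernels P K
  motions : ∀ (n : ℕ) (x : Fin n → ℝ), ∃ (Ω' : Type) (_ : MeasurableSpace Ω') (Q : Measure Ω')
    (X : ℝ≥0 → Ω' → Fin n → ℝ), IsProbabilityMeasure Q ∧ SolvesHowittWarren β ν Q x X ∧
      ∀ (t : ℝ≥0) (A : Fin n → Set ℝ), (∀ i, MeasurableSet (A i)) →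
        Q {ω | ∀ i, X t ω i ∈ A i} = ∫⁻ ω, ∏ i, K 0 t (ω, x i) (A i) ∂P

/-- `-log K_{0,t}(0,[tx,tx+1])`, with the value `+∞` when the kernel vanishes. -/
noncomputable def negLog {Ω : Type} [MeasurableSpace Ω] (K : ℝ → ℝ → Kernel (Ω × ℝ) ℝ)
    (x t : ℝ) (ω : Ω) : EReal :=
  - ENNReal.log (K 0 t (ω, 0) (Set.Icc (t * x) (t * x + 1)))

end Pool.Agent.H92HW
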