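import Pool.Agent.H92HW.Defs

/-!
# Howitt-Warren flows beyond the maximal speed: proofs
-/

set_option autoImplicit false

open MeasureTheory ProbabilityTheory Filter Topology
open scoped NNReal ENNReal

namespace Pool.Agent.H92HW

section HW

variable {β : ℝ} {ν : Measure unitInterval} {Ω : Type} [MeasurableSpace Ω] {Q : Measure Ω}
  [IsProbabilityMeasure Q] {n : ℕ} {x : Fin n → ℝ} {X : ℝ≥0 → Ω → Fin n → ℝ}

lemma continuous_fMax (Δ : Finset (Fin n)) (hΔ : Δ.Nonempty) :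
    Continuous (fMax Δ hΔ) := by
  unfold fMax
  exact Continuous.finset_sup'_apply hΔ (fun i _ => continuous_apply i)

lemma measurable_gMax (Δ : Finset (Fin n)) (hΔ : Δ.Nonempty) :
    Measurable (gMax Δ hΔ) := by
  unfold gMax
  simp_rw [Finset.card_filter]
  refine Finset.measurable_sum _ fun i _ => Measurable.ite ?_ measurable_const measurable_const
  exact measurableSet_eq_fun (measurable_pi_apply i) (continuous_fMax Δ hΔ).measurable

lemma gMax_le (Δ : Finset (Fin n)) (hΔ : Δ.Nonempty) (y : Fin n → ℝ) :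
    gMax Δ hΔ y ≤ n := by
  unfold gMax
  refine (Finset.card_filter_le _ _).trans ?_
  simpa using Finset.card_le_univ Δ

/-- The upper speed bounds all the `β₊(m)`. -/
lemma betaPlus_le [IsFiniteMeasure ν]
    (hν : ∫⁻ q : unitInterval, (ENNReal.ofReal (q : ℝ))⁻¹ ∂ν ≠ ∞) (m : ℕ) :
    betaPlus β ν m ≤
      β + 2 * (∫⁻ q : unitInterval, (ENNReal.ofReal (q : ℝ))⁻¹ ∂ν).toReal := by
  have hnn : ∀ q : unitInterval, 0 ≤ ∑ k ∈ Finset.range (m - 1), (1 - (q : ℝ)) ^ k := by
    intro q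
    exact Finset.sum_nonneg fun k _ => pow_nonneg (by linarith [q.2.2]) k
  unfold betaPlus
  have key : ∫ q : unitInterval, ∑ k ∈ Finset.range (m - 1), (1 - (q : ℝ)) ^ k ∂ν ≤
      (∫⁻ q : unitInterval, (ENNReal.ofReal (q : ℝ))⁻¹ ∂ν).toReal := by
    rw [integral_eq_lintegral_of_nonneg_ae (ae_of_all _ hnn) (by fun_prop)]
    refine ENNReal.toReal_mono hν (lintegral_mono fun q => ?_)
    rcases eq_or_lt_of_le q.2.1 with h | h
    · simp [← h]
    · rw [← ENNReal.ofReal_inv_of_pos h]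
      refine ENNReal.ofReal_le_ofReal ?_
      have h1 : (∑ k ∈ Finset.range (m - 1), (1 - (q : ℝ)) ^ k) * (q : ℝ)
          = 1 - (1 - (q : ℝ)) ^ (m - 1) := by
        have := geom_sum_mul (1 - (q : ℝ)) (m - 1)
        linarith
      have h2 : 0 ≤ (1 - (q : ℝ)) ^ (m - 1) := pow_nonneg (by linarith [q.2.2]) _
      rw [← one_div, le_div_iff₀ h]
      linarith
  linarith

omit [IsProbabilityMeasure Q] in
lemma drift_le [IsFiniteMeasure ν]
    (hν : ∫⁻ q : unitInterval, (ENNReal.ofReal (q : ℝ))⁻¹ ∂ν ≠ ∞)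
    (hX : SolvesHowittWarren β ν Q x X) (Δ : Finset (Fin n)) (hΔ : Δ.Nonempty) (t : ℝ≥0)
    (ω : Ω) :
    ∫ s in (0 : ℝ)..t, betaPlus β ν (gMax Δ hΔ (X s.toNNReal ω)) ≤
      (β + 2 * (∫⁻ q : unitInterval, (ENNReal.ofReal (q : ℝ))⁻¹ ∂ν).toReal) * t := by
  set b := β + 2 * (∫⁻ q : unitInterval, (ENNReal.ofReal (q : ℝ))⁻¹ ∂ν).toReal with hb
  have hmeas : Measurable fun s : ℝ => betaPlus β ν (gMax Δ hΔ (X s.toNNReal ω)) := by
    have h1 : Measurable fun s : ℝ => X s.toNNReal ω :=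
      ((hX.continuous_paths ω).comp continuous_real_toNNReal).measurable
    exact (measurable_from_nat (f := betaPlus β ν)).comp ((measurable_gMax Δ hΔ).comp h1)
  obtain ⟨C, hC⟩ : ∃ C : ℝ, ∀ m ≤ n, |betaPlus β ν m| ≤ C := by
    refine ⟨∑ m ∈ Finset.range (n + 1), |betaPlus β ν m|, fun m hm => ?_⟩
    exact Finset.single_le_sum (f := fun m => |betaPlus β ν m|) (fun _ _ => abs_nonneg _)
      (Finset.mem_range.2 (by omega))
  have hint : IntervalIntegrable (fun s : ℝ => betaPlus β ν (gMax Δ hΔ (X s.toNNReal ω)))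
      volume 0 t := by
    rw [intervalIntegrable_iff]
    refine Measure.integrableOn_of_bounded (M := C) ?_ hmeas.aestronglyMeasurable ?_
    · simp
    · exact ae_of_all _ fun s => by
        rw [Real.norm_eq_abs]
        exact hC _ (gMax_le Δ hΔ _)
  have h2 : ∫ s in (0 : ℝ)..t, betaPlus β ν (gMax Δ hΔ (X s.toNNReal ω)) ≤
      ∫ s in (0 : ℝ)..t, b :=
    intervalIntegral.integral_mono_on t.2 hint (by simp) fun s _ => betaPlus_le hν _
  refine h2.trans (le_of_eq ?_)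
  simp [mul_comm]

lemma martingale_integral_eq {M : ℝ≥0 → Ω → ℝ} {F : Filtration ℝ≥0 ‹MeasurableSpace Ω›}
    (hM : Martingale M F Q) (t : ℝ≥0) : ∫ ω, M t ω ∂Q = ∫ ω, M 0 ω ∂Q := by
  have h1 := hM.2 0 t bot_le
  rw [← integral_condExp (F.le 0) (f := M t)]
  exact integral_congr_ae h1

lemma betaPlus_one : betaPlus β ν 1 = β := by
  simp [betaPlus]

omit [IsProbabilityMeasure Q] in
lemma singleton_martingale (hX : SolvesHowittWarren β ν Q x X) (i : Fin n) :
    Martingale (fun (t : ℝ≥0) ω => X t ω i - β * t)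
      (Filtration.natural X hX.measurable) Q := by
  have h := hX.max_martingale {i} (Finset.singleton_nonempty i)
  have h2 : (fun (t : ℝ≥0) ω => fMax {i} (Finset.singleton_nonempty i) (X t ω) -
      ∫ s in (0 : ℝ)..t, betaPlus β ν (gMax {i} (Finset.singleton_nonempty i)
        (X s.toNNReal ω))) = fun (t : ℝ≥0) ω => X t ω i - β * t := by
    funext t ω
    have h3 : ∀ y : Fin n → ℝ, gMax {i} (Finset.singleton_nonempty i) y = 1 := by
      intro y
      unfold gMax fMax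
      rw [Finset.sup'_singleton, Finset.filter_singleton]
      simp
    simp only [h3, betaPlus_one]
    simp [fMax, mul_comm]
  rw [h2] at h
  exact h

/-- With a probability bounded away from one, no particle started at `0` is beyond the line of
slope `y` at time `t`, whatever the number of particles. -/
lemma exceed_le [IsFiniteMeasure ν]
    (hν : ∫⁻ q : unitInterval, (ENNReal.ofReal (q : ℝ))⁻¹ ∂ν ≠ ∞)
    (hX : SolvesHowittWarren β ν Q (fun _ => 0) X) (i0 : Fin n) {t : ℝ≥0} (ht : 0 < t)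
    {y η : ℝ} (hη : 0 < η) (hy : β + η < y) :
    Q.real {ω | ∃ i, y * t ≤ X t ω i} ≤
      2 * (∫⁻ q : unitInterval, (ENNReal.ofReal (q : ℝ))⁻¹ ∂ν).toReal / (y - β - η)
        + 1 / (η ^ 2 * t) := by
  set I := (∫⁻ q : unitInterval, (ENNReal.ofReal (q : ℝ))⁻¹ ∂ν).toReal with hI
  have ht' : (0 : ℝ) < t := ht
  have hU : (Finset.univ : Finset (Fin n)).Nonempty := ⟨i0, Finset.mem_univ _⟩
  set M : ℝ≥0 → Ω → ℝ := fun t ω => fMax Finset.univ hU (X t ω) -
    ∫ s in (0 : ℝ)..t, betaPlus β ν (gMax Finset.univ hU (X s.toNNReal ω)) with hM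
  have hMm : Martingale M (Filtration.natural X hX.measurable) Q :=
    hX.max_martingale Finset.univ hU
  have hNm := singleton_martingale hX i0
  set D : Ω → ℝ := fun ω => M t ω + (β + 2 * I) * t - (X t ω i0 - β * t) - β * t with hD
  -- integrals at time zero
  have hM0 : ∫ ω, M t ω ∂Q = 0 := by
    rw [martingale_integral_eq hMm t]
    have : M 0 =ᵐ[Q] fun _ => 0 := by
      filter_upwards [hX.start] with ω hω
      simp only [hM, hω]
      simp [fMax]
    rw [integral_congr_ae this]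
    simp
  have hN0 : ∫ ω, (X t ω i0 - β * t) ∂Q = 0 := by
    rw [martingale_integral_eq hNm t]
    have : (fun ω => X 0 ω i0 - β * ((0 : ℝ≥0) : ℝ)) =ᵐ[Q] fun _ => 0 := by
      filter_upwards [hX.start] with ω hω
      simp [hω]
    rw [integral_congr_ae this]
    simp
  have hMi : Integrable (M t) Q := hMm.integrable t
  have hNi : Integrable (fun ω => X t ω i0 - β * t) Q := hNm.integrable t
  have hDi : Integrable D Q := ((hMi.add (integrable_const _)).sub hNi).sub (integrable_const _)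
  have hDint : ∫ ω, D ω ∂Q = 2 * I * t := by
    have h1 : D = fun ω => (M t ω - (X t ω i0 - β * t)) + 2 * I * t := by
      funext ω
      simp only [hD]
      ring
    have hMN : Integrable (fun ω => M t ω - (X t ω i0 - β * t)) Q := hMi.sub hNi
    rw [h1, integral_add hMN (integrable_const _), integral_sub hMi hNi, hM0, hN0]
    simp
  have hDge : ∀ ω, fMax Finset.univ hU (X t ω) - X t ω i0 ≤ D ω := by
    intro ω
    have h1 := drift_le hν hX Finset.univ hU t ω
    simp only [hD, hM]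
    linarith
  have hmaxge : ∀ ω i, X t ω i ≤ fMax Finset.univ hU (X t ω) := fun ω i =>
    Finset.le_sup' (fun i => X t ω i) (Finset.mem_univ i)
  have hD0 : ∀ ω, 0 ≤ D ω := fun ω => by
    have h1 := hDge ω
    have h2 := hmaxge ω i0
    linarith
  -- second moment
  have hM2 : Martingale (fun (t : ℝ≥0) ω => (X t ω i0 - β * t) ^ 2 - t)
      (Filtration.natural X hX.measurable) Q := by
    have h := hX.covariation i0 i0
    have h2 : (fun (t : ℝ≥0) ω => (X t ω i0 - β * t) * (X t ω i0 - β * t) -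
        ∫ s in (0 : ℝ)..t, Set.indicator {s : ℝ | X s.toNNReal ω i0 = X s.toNNReal ω i0}
          (fun _ => (1 : ℝ)) s) = fun (t : ℝ≥0) ω => (X t ω i0 - β * t) ^ 2 - t := by
      funext t ω
      simp
      ring
    rw [h2] at h
    exact h
  have hsqi : Integrable (fun ω => (X t ω i0 - β * t) ^ 2) Q := by
    refine ((hM2.integrable t).add (integrable_const (t : ℝ))).congr (ae_of_all _ fun ω => ?_)
    simp only [Pi.add_apply]
    ring
  have hsq : ∫ ω, (X t ω i0 - β * t) ^ 2 ∂Q = t := by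
    have hc := martingale_integral_eq hM2 t
    have h0 : (fun ω => (X 0 ω i0 - β * ((0 : ℝ≥0) : ℝ)) ^ 2 - ((0 : ℝ≥0) : ℝ))
        =ᵐ[Q] fun _ => 0 := by
      filter_upwards [hX.start] with ω hω
      simp [hω]
    rw [integral_congr_ae h0, integral_sub hsqi (integrable_const _)] at hc
    simp only [integral_const, probReal_univ, one_smul] at hc
    linarith
  -- Markov inequalities
  have hgap : 0 < (y - β - η) * t := mul_pos (by linarith) ht'
  have m1 : (y - β - η) * t * Q.real {ω | (y - β - η) * t ≤ D ω} ≤ 2 * I * t := by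
    rw [← hDint]
    exact mul_meas_ge_le_integral_of_nonneg (ae_of_all _ hD0) hDi _
  have hη2 : 0 < (η * t) ^ 2 := by positivity
  have m2 : (η * t) ^ 2 * Q.real {ω | (η * t) ^ 2 ≤ (X t ω i0 - β * t) ^ 2} ≤ t := by
    have := mul_meas_ge_le_integral_of_nonneg (μ := Q)
      (ae_of_all _ fun ω => sq_nonneg (X t ω i0 - β * t)) hsqi ((η * t) ^ 2)
    rw [hsq] at this
    exact this
  have hsub : {ω | ∃ i, y * t ≤ X t ω i} ⊆ {ω | (y - β - η) * t ≤ D ω} ∪
      {ω | (η * t) ^ 2 ≤ (X t ω i0 - β * t) ^ 2} := by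
    rintro ω ⟨i, hi⟩
    by_cases h : η * t ≤ X t ω i0 - β * t
    · right
      exact pow_le_pow_left₀ (by positivity) h 2
    · left
      push Not at h
      have h1 := hmaxge ω i
      have h2 := hDge ω
      change (y - β - η) * t ≤ D ω
      nlinarith
  have h4 : Q.real {ω | ∃ i, y * t ≤ X t ω i} ≤ Q.real {ω | (y - β - η) * t ≤ D ω} +
      Q.real {ω | (η * t) ^ 2 ≤ (X t ω i0 - β * t) ^ 2} :=
    (measureReal_mono hsub).trans (measureReal_union_le _ _)
  have h5 : Q.real {ω | (y - β - η) * t ≤ D ω} ≤ 2 * I / (y - β - η) := by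
    rw [le_div_iff₀ (by linarith)]
    have : t * (Q.real {ω | (y - β - η) * t ≤ D ω} * (y - β - η)) ≤ t * (2 * I) := by
      linarith
    exact le_of_mul_le_mul_left this ht'
  have h6 : Q.real {ω | (η * t) ^ 2 ≤ (X t ω i0 - β * t) ^ 2} ≤ 1 / (η ^ 2 * t) := by
    rw [le_div_iff₀ (by positivity)]
    have : t * (Q.real {ω | (η * t) ^ 2 ≤ (X t ω i0 - β * t) ^ 2} * (η ^ 2 * t)) ≤ t * 1 := by
      linarith
    exact le_of_mul_le_mul_left this ht'
  linarith

end HW

section flow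

variable {β : ℝ} {ν : Measure unitInterval} [IsFiniteMeasure ν] {Ω : Type} [MeasurableSpace Ω]
  {P : Measure Ω} [IsProbabilityMeasure P] {K : ℝ → ℝ → Kernel (Ω × ℝ) ℝ}

/-- The probability that the kernel vanishes on `[tx,tx+1]` is bounded away from zero. -/
lemma zero_prob_ge (hν : ∫⁻ q : unitInterval, (ENNReal.ofReal (q : ℝ))⁻¹ ∂ν ≠ ∞)
    (hK : IsHowittWarrenFlow β ν P K) {x : ℝ}
    (hx : β + 2 * (∫⁻ q : unitInterval, (ENNReal.ofReal (q : ℝ))⁻¹ ∂ν).toReal < x) :
    ∃ δ : ℝ, 0 < δ ∧ ∃ T : ℝ, 0 < T ∧ ∀ t : ℝ, T ≤ t →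
      ENNReal.ofReal δ ≤ P {ω | K 0 t (ω, 0) (Set.Icc (t * x) (t * x + 1)) = 0} := by
  set I := (∫⁻ q : unitInterval, (ENNReal.ofReal (q : ℝ))⁻¹ ∂ν).toReal with hI
  have hI0 : 0 ≤ I := ENNReal.toReal_nonneg
  set η := (x - β - 2 * I) / 2 with hη
  have hη0 : 0 < η := by rw [hη]; linarith
  have hd : 0 < x - β - η := by rw [hη]; linarith
  set p0 := 2 * I / (x - β - η) with hp0
  have hp1 : p0 < 1 := by
    rw [hp0, div_lt_one hd, hη]
    linarith
  set T := 2 / (η ^ 2 * (1 - p0)) with hT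
  have h1p : 0 < 1 - p0 := by linarith
  have hT0 : 0 < T := by positivity
  refine ⟨(1 - p0) / 2, by linarith, T, hT0, fun t ht => ?_⟩
  have ht0 : 0 < t := lt_of_lt_of_le hT0 ht
  set A : Set ℝ := Set.Icc (t * x) (t * x + 1) with hA
  have hAm : MeasurableSet A := measurableSet_Icc
  have : IsMarkovKernel (K 0 t) := hK.flow.markov 0 t ht0.le
  have hk1 : ∀ ω, K 0 t (ω, 0) Aᶜ ≤ 1 := fun ω => prob_le_one
  have hkm : Measurable fun ω : Ω => K 0 t (ω, 0) Aᶜ :=
    ((K 0 t).measurable_coe hAm.compl).comp (measurable_id.prodMk measurable_const)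
  -- the moments
  have hmom : ∀ n : ℕ, ENNReal.ofReal ((1 - p0) / 2) ≤ ∫⁻ ω, (K 0 t (ω, 0) Aᶜ) ^ (n + 1) ∂P := by
    intro n
    obtain ⟨Ω', mΩ', Q, X, hQ, hX, hlaw⟩ := hK.motions (n + 1) (fun _ => 0)
    have h1 := hlaw ⟨t, ht0.le⟩ (fun _ => Aᶜ) (fun _ => hAm.compl)
    refine (?_ : _ ≤ Q {ω | ∀ i, X ⟨t, ht0.le⟩ ω i ∈ Aᶜ}).trans_eq
      (h1.trans (lintegral_congr fun ω => by
        rw [Finset.prod_const, Finset.card_univ, Fintype.card_fin]; rfl))
    have h3 := exceed_le (Q := Q) hν hX 0 (t := ⟨t, ht0.le⟩) ht0 (y := x) hη0 (by linarith)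
    have h4 : {ω | ∃ i, x * ((⟨t, ht0.le⟩ : ℝ≥0) : ℝ) ≤ X ⟨t, ht0.le⟩ ω i}ᶜ ⊆
        {ω | ∀ i, X ⟨t, ht0.le⟩ ω i ∈ Aᶜ} := by
      intro ω hω i hi
      apply hω
      refine ⟨i, ?_⟩
      have := hi.1
      change x * t ≤ _
      linarith
    have hmeas : MeasurableSet {ω | ∃ i, x * ((⟨t, ht0.le⟩ : ℝ≥0) : ℝ) ≤ X ⟨t, ht0.le⟩ ω i} := by
      have : {ω | ∃ i, x * ((⟨t, ht0.le⟩ : ℝ≥0) : ℝ) ≤ X ⟨t, ht0.le⟩ ω i} =
          ⋃ i, {ω | x * ((⟨t, ht0.le⟩ : ℝ≥0) : ℝ) ≤ X ⟨t, ht0.le⟩ ω i} := by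
        ext ω
        simp
      rw [this]
      refine MeasurableSet.iUnion fun i => ?_
      exact measurableSet_le measurable_const
        ((measurable_pi_apply i).comp (hX.measurable _).measurable)
    refine le_trans ?_ (measure_mono h4)
    rw [ENNReal.ofReal_le_iff_le_toReal (measure_ne_top _ _)]
    change _ ≤ Q.real _
    rw [probReal_compl_eq_one_sub hmeas]
    have h5 : 1 / (η ^ 2 * t) ≤ (1 - p0) / 2 := by
      rw [div_le_iff₀ (by positivity)]
      have h6 : (1 - p0) / 2 * (η ^ 2 * T) = 1 := by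
        rw [hT]
        field_simp
      have h7 : (1 - p0) / 2 * (η ^ 2 * T) ≤ (1 - p0) / 2 * (η ^ 2 * t) := by gcongr
      linarith
    have h8 : Q.real {ω | ∃ i, x * ((⟨t, ht0.le⟩ : ℝ≥0) : ℝ) ≤ X ⟨t, ht0.le⟩ ω i} ≤
        p0 + 1 / (η ^ 2 * t) := h3
    linarith
  -- the limit of the moments
  have hlim : Tendsto (fun n : ℕ => ∫⁻ ω, (K 0 t (ω, 0) Aᶜ) ^ (n + 1) ∂P) atTop
      (𝓝 (∫⁻ ω, Set.indicator {ω | K 0 t (ω, 0) Aᶜ = 1} (fun _ => 1) ω ∂P)) := by
    refine tendsto_lintegral_of_dominated_convergence (fun _ => 1) (fun n => hkm.pow_const _)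
      (fun n => ae_of_all _ fun ω => pow_le_one' (hk1 ω) _) (by simp) (ae_of_all _ fun ω => ?_)
    by_cases h : K 0 t (ω, 0) Aᶜ = 1
    · simp [h]
    · have h1 : K 0 t (ω, 0) Aᶜ < 1 := lt_of_le_of_ne (hk1 ω) h
      have h2 := (ENNReal.tendsto_pow_atTop_nhds_zero_of_lt_one h1).comp (tendsto_add_atTop_nat 1)
      have h3 : Set.indicator {ω | K 0 t (ω, 0) Aᶜ = 1} (fun _ => (1 : ℝ≥0∞)) ω = 0 :=
        Set.indicator_of_notMem (show ω ∉ {ω | K 0 t (ω, 0) Aᶜ = 1} from h) _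
      rw [h3]
      exact h2
  have h9 := ge_of_tendsto' hlim hmom
  have hset : MeasurableSet {ω | K 0 t (ω, 0) Aᶜ = 1} := hkm (measurableSet_singleton 1)
  rw [lintegral_indicator_const hset, one_mul] at h9
  refine h9.trans (measure_mono fun ω hω => ?_)
  exact (prob_compl_eq_one_iff hAm).1 hω

/-- No affine normalisation of `-log K_{0,t}(0,[tx,tx+1])` converges in distribution to a real
random variable. -/
lemma no_limit (hν : ∫⁻ q : unitInterval, (ENNReal.ofReal (q : ℝ))⁻¹ ∂ν ≠ ∞)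
    (hK : IsHowittWarrenFlow β ν P K) {x : ℝ}
    (hx : β + 2 * (∫⁻ q : unitInterval, (ENNReal.ofReal (q : ℝ))⁻¹ ∂ν).toReal < x)
    (a b : ℝ → ℝ) (hb : ∀ t, 0 < t → b t ≠ 0) {Ω₀ : Type} [MeasurableSpace Ω₀]
    (P₀ : Measure Ω₀) [IsProbabilityMeasure P₀] (Z : Ω₀ → ℝ) :
    ¬ TendstoInDistribution (fun (t : ℝ) ω => (negLog K x t ω - (a t : EReal)) / (b t : EReal))
      atTop (fun ω => (Z ω : EReal)) (fun _ => P) P₀ := by
  intro h
  obtain ⟨δ, hδ, T, hT, hge⟩ := zero_prob_ge hν hK hx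
  have hF : IsClosed ({⊥, ⊤} : Set EReal) := (Set.toFinite _).isClosed
  have hlim := ProbabilityMeasure.limsup_measure_closed_le_of_tendsto h.tendsto hF
  have h0 : (P₀.map (fun ω => (Z ω : EReal))) ({⊥, ⊤} : Set EReal) = 0 := by
    rw [Measure.map_apply_of_aemeasurable h.aemeasurable_limit hF.measurableSet]
    have : (fun ω => (Z ω : EReal)) ⁻¹' ({⊥, ⊤} : Set EReal) = ∅ := by
      ext ω
      simp
    rw [this, measure_empty]
  have h1 : ∀ t, T ≤ t → ENNReal.ofReal δ ≤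
      (P.map (fun ω => (negLog K x t ω - (a t : EReal)) / (b t : EReal)))
        ({⊥, ⊤} : Set EReal) := by
    intro t ht
    rw [Measure.map_apply_of_aemeasurable (h.forall_aemeasurable t) hF.measurableSet]
    refine (hge t ht).trans (measure_mono fun ω hω => ?_)
    have h2 : negLog K x t ω = ⊤ := by
      unfold negLog
      have : K 0 t (ω, 0) (Set.Icc (t * x) (t * x + 1)) = 0 := hω
      rw [this, ENNReal.log_zero, EReal.neg_bot]
    simp only [Set.mem_preimage, Set.mem_insert_iff, Set.mem_singleton_iff]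
    rw [h2, EReal.top_sub_coe]
    rcases lt_or_gt_of_ne (hb t (lt_of_lt_of_le hT ht)) with h3 | h3
    · left
      exact EReal.top_div_of_neg_ne_bot (by exact_mod_cast h3) (EReal.coe_ne_bot _)
    · right
      exact EReal.top_div_of_pos_ne_top (by exact_mod_cast h3) (EReal.coe_ne_top _)
  have h2 : ENNReal.ofReal δ ≤ limsup (fun t : ℝ =>
      (P.map (fun ω => (negLog K x t ω - (a t : EReal)) / (b t : EReal)))
        ({⊥, ⊤} : Set EReal)) atTop := by
    refine le_limsup_of_frequently_le ?_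
    exact ((eventually_ge_atTop T).mono fun t ht => h1 t ht).frequently
  have h3 : ENNReal.ofReal δ ≤ 0 := by
    rw [← h0]
    exact h2.trans hlim
  have h4 : 0 < ENNReal.ofReal δ := ENNReal.ofReal_pos.2 hδ
  exact absurd h3 (not_le.2 h4)

end flow

end Pool.Agent.H92HW
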